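import Pool.Agent.MP_06b47d_co.Sum

/-! A triangulation of the genus three surface on 28 vertices without a proper colouring. -/

open Relation

namespace Pool.Agent.MP_06b47d_co

def tab : ℕ :=
  10903928694734342398319680918757836686071487873654792926044332436399217873477533420039787757132502286064438388783425776974167004068130793981448549498652061603311232649957382920391438557312555369028775797915906466251408657327305880668952714437366926317930587203164130281713037154117794056910070339339138351861454272908074848323637060128440889010018538795224962529082640987925020254313650572710906934809005776666860965949124050007744003777855538851382278842348812085683004537670676471416774373950468595251492068999315924363562219411125221569248367079022991514317577426730656462905787561416084239640757301423906449740121908910250098369697882033789221446341701304285832592818464603830121070978817681812403187782825776140925011117581247367553283808839127749608784459819954875622734515975848662195368560898211503811867781257591891911334278991575074050419682172706284749152673429818288624762316000615611864615986152664197597940958895739550277140951804552635385888297335001521491470007429990845712881412795905645157762380294440022204861766617593915728217022433831758095775615487257651650058170974518477167909559186163583193903722688415369193657975592528969642629619834631320186820880501855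

def nv (a b : ℕ) : ℕ := tab >>> (5 * (28 * a + b)) % 32

def ad (a b : Fin 28) : Prop := nv a b < 28

instance (a b : Fin 28) : Decidable (ad a b) := by unfold ad; infer_instance

def nf (a b : Fin 28) : Fin 28 := Fin.ofNat 28 (nv a b)

lemma b_symm : ∀ a b, ad a b → ad b a := by decide +kernel

lemma b_h1 : ∀ a b, ad a b → ad b (nf a b) := by decide +kernel

lemma b_iter {v u : Fin 28} (h : ad v u) (k : ℕ) : ad v ((fun x => nf x v)^[k] u) ∧
    ReflTransGen (fun x y => ad v x ∧ y = nf x v) u ((fun x => nf x v)^[k] u) := by
  induction k with
  | zero => exact ⟨h, .refl⟩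
  | succ k ih =>
    rw [Function.iterate_succ_apply']
    exact ⟨b_h1 _ _ (b_symm _ _ ih.1), ih.2.tail ⟨ih.1, rfl⟩⟩

lemma b_link : ∀ v u, ad v u → ∀ w, ad v w → ∃ k < 20, (fun x => nf x v)^[k] u = w := by
  decide +kernel

lemma b_conn (a : Fin 28) : ReflTransGen ad a 0 ∧ ReflTransGen ad 0 a := by
  have h : ∀ a : Fin 28, a = 0 ∨ ∃ b < a, ad a b := by decide +kernel
  induction a using WellFoundedLT.induction with
  | ind a ih =>
    rcases h a with rfl | ⟨b, h1, h2⟩
    · exact ⟨.refl, .refl⟩
    · exact ⟨.head h2 (ih b h1).1, (ih b h1).2.tail (b_symm _ _ h2)⟩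

def base : Pre (Fin 28) where
  adj := ad
  nx := nf
  symm := b_symm _ _
  irr := by decide +kernel
  h1 := b_h1 _ _
  h2 := fun {a b} => by revert a b; decide +kernel
  link := fun {v u w} h1 h2 => by
    obtain ⟨k, -, rfl⟩ := b_link v u h1 w h2
    exact (b_iter h1 k).2
  conn := fun a b => (b_conn a).1.trans (b_conn b).2

lemma base_darts : base.darts = 192 := by
  have : (∑ x : Fin 28, ∑ y : Fin 28, if ad x y then 1 else 0) = 192 := by decide +kernel
  rw [← this]
  classical
  exact Finset.sum_congr rfl fun x _ => Finset.sum_congr rfl fun y _ => if_congr Iff.rfl rfl rfl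

/-- The edge with code `e` follows the edge with code `p` in a face. -/
def fol (p e : ℕ) : Bool :=
  [(Fin.ofNat 28 (p / 28), Fin.ofNat 28 p), (Fin.ofNat 28 p, Fin.ofNat 28 (p / 28))].any
    fun q => decide (ad q.1 q.2) && code 28 q.1 q.2 == p && code 28 q.2 (nf q.1 q.2) == e

def okc (its : List (ℕ × List ℕ)) : Bool := its.all fun it => it.2.all fun p => fol p it.1 || fol it.1 p

lemma run (c : ℕ → Fin 3) (hc : ∀ a b, ad a b → c (code 28 a b) ≠ c (code 28 b (nf a b)))
    (goal : (ℕ → Fin 3) → Bool) (its : List (ℕ × List ℕ)) (h1 : wf [] its = true)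
    (h2 : chk goal its (fun _ => 0) = true) (h3 : okc its = true) :
    ∃ s', (∀ j ∈ its.map Prod.fst, s' j = c j) ∧ goal s' = true := by
  have key : ∀ p e, fol p e = true → c p ≠ c e := by
    intro p e h
    simp only [fol, List.any_eq_true, Bool.and_eq_true, decide_eq_true_eq, beq_iff_eq] at h
    obtain ⟨q, -, ⟨a1, a2⟩, a3⟩ := h
    have := hc _ _ a1
    rwa [a2, a3] at this
  refine chk_main goal c its h1 h2 fun it hit p hp => ?_
  simp only [okc, List.all_eq_true, Bool.or_eq_true] at h3
  rcases h3 it hit p hp with h | h
  exacts [key _ _ h, (key _ _ h).symm]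

/-- The two boundary patterns of the gadget. -/
def ty (p q r t : Fin 3) : Bool := (p == q && r == t && p != r) || (p == t && q == r && p != q)

def g0 : List (ℕ × List ℕ) :=
  [(117, []), (161, [117]), (133, [117, 161]), (4, [117]), (5, [4, 117]), (189, [133]), (118,
    [133, 189]), (175, [118]), (119, [118, 175]), (220, [119]), (136, [119, 220]), (556, [136]),
    (131, [136, 556]), (160, [161]), (581, [160, 161]), (146, [5, 160]), (188, [146, 160]), (6,
    [5, 146, 175]), (7, [6, 175]), (90, [188, 189]), (104, [90, 188]), (105, [90, 189]), (103,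
    [104]), (552, [103, 104, 581]), (553, [552, 556, 581]), (612, [553, 556]), (8, [7]), (204, [7,
    8, 220]), (248, [204, 220, 612]), (245, [105, 248, 612]), (92, [8, 105, 245]), (3, [8, 92])]

def g1 : List (ℕ × List ℕ) :=
  [(554, []), (526, [554]), (523, [526, 554]), (103, [554]), (106, [103, 554]), (466, [523]),
    (467, [466, 523]), (471, [467]), (555, [467, 471]), (670, [555]), (558, [555, 670]), (278,
    [558]), (271, [278, 558]), (442, [526]), (438, [442, 526]), (470, [106, 442]), (436, [442,
    470]), (100, [106, 470, 471]), (107, [100, 471]), (72, [436, 466]), (71, [72, 436]), (74, [72,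
    466]), (65, [71]), (267, [65, 71, 438]), (270, [267, 278, 438]), (530, [270, 278]), (101,
    [107]), (499, [101, 107, 670]), (502, [499, 530, 670]), (494, [74, 502, 530]), (73, [74, 101,
    494]), (59, [73, 101])]

def g2 : List (ℕ × List ℕ) :=
  [(38, []), (293, [38]), (41, [38, 293]), (32, [38]), (122, [32, 38]), (321, [41]), (39, [41,
    321]), (320, [39]), (40, [39, 320]), (350, [40]), (42, [40, 350]), (266, [42]), (37, [42,
    266]), (307, [293]), (391, [293, 307]), (291, [122, 307]), (335, [291, 307]), (123, [122, 291,
    320]), (124, [123, 320]), (327, [321, 335]), (559, [327, 335]), (383, [321, 327]), (271,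
    [559]), (279, [271, 391, 559]), (265, [266, 279, 391]), (378, [265, 266]), (137, [124]), (361,
    [124, 137, 350]), (417, [350, 361, 378]), (389, [378, 383, 417]), (557, [137, 383, 389]),
    (131, [137, 557])]

def g3 : List (ℕ × List ℕ) :=
  [(1, []), (30, [1]), (2, [1, 30]), (59, [2]), (3, [2, 59]), (4, [1]), (32, [1, 4]), (37, [30]),
    (65, [30, 37]), (103, []), (131, []), (271, [])]

lemma base_bad : base.Bad := by
  rintro ⟨f, f1, f2⟩
  obtain ⟨c, hc⟩ := exists_code f f1
  have hc' : ∀ a b, ad a b → c (code 28 a b) ≠ c (code 28 b (nf a b)) := fun a b h => by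
    rw [hc, hc]; exact f2 a b h
  obtain ⟨s0, a0, b0⟩ := run c hc' (fun s => ty (s 3) (s 103) (s 131) (s 4)) g0
    (by decide +kernel) (by decide +kernel) (by decide +kernel)
  obtain ⟨s1, a1, b1⟩ := run c hc' (fun s => ty (s 59) (s 65) (s 271) (s 103)) g1
    (by decide +kernel) (by decide +kernel) (by decide +kernel)
  obtain ⟨s2, a2, b2⟩ := run c hc' (fun s => ty (s 131) (s 271) (s 37) (s 32)) g2
    (by decide +kernel) (by decide +kernel) (by decide +kernel)
  obtain ⟨s3, a3, b3⟩ := run c hc' (fun s => !(ty (s 3) (s 103) (s 131) (s 4) &&
    ty (s 59) (s 65) (s 271) (s 103) && ty (s 131) (s 271) (s 37) (s 32))) g3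
    (by decide +kernel) (by decide +kernel) (by decide +kernel)
  rw [a0 3 (by decide), a0 103 (by decide), a0 131 (by decide), a0 4 (by decide)] at b0
  rw [a1 59 (by decide), a1 65 (by decide), a1 271 (by decide), a1 103 (by decide)] at b1
  rw [a2 131 (by decide), a2 271 (by decide), a2 37 (by decide), a2 32 (by decide)] at b2
  rw [a3 3 (by decide), a3 103 (by decide), a3 131 (by decide), a3 4 (by decide),
    a3 59 (by decide), a3 65 (by decide), a3 271 (by decide), a3 37 (by decide),
    a3 32 (by decide), b0, b1, b2] at b3
  exact absurd b3 (by decide)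

lemma good_three : Good 3 :=
  ⟨Fin 28, inferInstance, base, ⟨0, 1, show ad 0 1 by decide +kernel⟩,
    by rw [base_darts, Fintype.card_fin], base_bad⟩

lemma good_ge {g : ℕ} (h : 3 ≤ g) : Good g := by
  induction g, h using Nat.le_induction with
  | base => exact good_three
  | succ _ _ ih => exact ih.succ

end Pool.Agent.MP_06b47d_co
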