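import Mathlib

/-! A verified backtracking search over 3-colourings with inequality constraints. -/

namespace Pool.Agent.MP_06b47d_co

def chk (goal : (ℕ → Fin 3) → Bool) : List (ℕ × List ℕ) → (ℕ → Fin 3) → Bool
  | [], s => goal s
  | (e, L) :: rest, s => [0, 1, 2].all fun col : Fin 3 =>
      L.any (fun p => s p == col) || chk goal rest (fun j => if j = e then col else s j)

def wf : List ℕ → List (ℕ × List ℕ) → Bool
  | _, [] => true
  | done, (e, L) :: rest => L.all (fun p => p ∈ done) && wf (e :: done) rest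

lemma chk_sound (goal : (ℕ → Fin 3) → Bool) (c : ℕ → Fin 3) (its : List (ℕ × List ℕ)) :
    ∀ (done : List ℕ) (s : ℕ → Fin 3), (∀ j ∈ done, s j = c j) → wf done its = true →
      (∀ it ∈ its, ∀ p ∈ it.2, c p ≠ c it.1) → chk goal its s = true →
      ∃ s', (∀ j, j ∈ done ∨ j ∈ its.map Prod.fst → s' j = c j) ∧ goal s' = true := by
  induction its with
  | nil => exact fun done s h1 _ _ h4 => ⟨s, fun j hj => h1 j (by simpa using hj), h4⟩
  | cons it rest ih =>
    obtain ⟨e, L⟩ := it
    intro done s h1 h2 h3 h4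
    simp only [wf, Bool.and_eq_true, List.all_eq_true, decide_eq_true_eq] at h2
    simp only [chk, List.all_eq_true, Bool.or_eq_true, List.any_eq_true, beq_iff_eq] at h4
    rcases h4 (c e) (by generalize c e = x; revert x; decide) with ⟨p, hp, hp'⟩ | h5
    · exact absurd ((h1 p (h2.1 p hp)).symm.trans hp') (h3 (e, L) (by simp) p hp)
    · obtain ⟨s', a1, a2⟩ := ih (e :: done) _ (fun j hj => by
        by_cases h : j = e
        · simp [h]
        · simp only [h, if_false]
          exact h1 j (by simpa [h] using hj)) h2.2 (fun it hit => h3 it (by simp [hit])) h5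
      exact ⟨s', fun j hj => a1 j (by simp only [List.map_cons, List.mem_cons] at hj ⊢; tauto), a2⟩

lemma chk_main (goal : (ℕ → Fin 3) → Bool) (c : ℕ → Fin 3) (its : List (ℕ × List ℕ))
    (h2 : wf [] its = true) (h4 : chk goal its (fun _ => 0) = true)
    (h3 : ∀ it ∈ its, ∀ p ∈ it.2, c p ≠ c it.1) :
    ∃ s', (∀ j ∈ its.map Prod.fst, s' j = c j) ∧ goal s' = true := by
  obtain ⟨s', a1, a2⟩ := chk_sound goal c its [] _ (by simp) h2 h3 h4
  exact ⟨s', fun j hj => a1 j (Or.inr hj), a2⟩

/-- The edge `{a, b}` as a number. -/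
def code (n a b : ℕ) : ℕ := min a b * n + max a b

/-- Transfer of a symmetric colouring of pairs to edge codes. -/
lemma exists_code {n : ℕ} [NeZero n] (f : Fin n → Fin n → Fin 3) (hf : ∀ a b, f a b = f b a) :
    ∃ c : ℕ → Fin 3, ∀ a b : Fin n, c (code n a b) = f a b := by
  refine ⟨fun m => f (Fin.ofNat n (m / n)) (Fin.ofNat n (m % n)), fun a b => ?_⟩
  have key : ∀ a b : Fin n, f (Fin.ofNat n ((a * n + b) / n)) (Fin.ofNat n ((a * n + b) % n)) =
      f a b := by
    intro a b
    rw [mul_comm, Nat.mul_add_div (NeZero.pos n), Nat.mul_add_mod, Nat.div_eq_of_lt b.2,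
      Nat.mod_eq_of_lt b.2]
    simp
  rcases le_total (a : ℕ) b with h | h
  · simp only [code, min_eq_left h, max_eq_right h, key]
  · simp only [code, min_eq_right h, max_eq_left h, key, hf a b]

end Pool.Agent.MP_06b47d_co
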