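import Mathlib

namespace Pool.Agent.MP_06b47d_co

variable {V : Type} {G : SimpleGraph V}

/-- A rotation system of a simple graph: a permutation of the darts (oriented edges) whose cycles
are the sets of darts starting at a common vertex. For a finite connected graph this is the
combinatorial form of a cellular embedding in a closed orientable surface. -/
structure RotationSystem (G : SimpleGraph V) where
  rot : Equiv.Perm G.Dart
  rot_fst : ∀ d, (rot d).fst = d.fst
  rot_cyc : ∀ d d', d.fst = d'.fst → rot.SameCycle d d'

namespace RotationSystem

/-- The face-tracing permutation: reverse the dart, then rotate. -/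
def face (R : RotationSystem G) : Equiv.Perm G.Dart :=
  R.rot * SimpleGraph.Dart.symm_involutive.toPerm

/-- The faces of the embedding, which are the vertices of the dual graph. -/
def Face (R : RotationSystem G) : Type :=
  Quotient (Equiv.Perm.SameCycle.setoid R.face)

/-- Every face is bounded by a closed walk of length 3. -/
def IsTriangulation (R : RotationSystem G) : Prop :=
  ∀ d, Function.minimalPeriod R.face d = 3

/-- The graph is connected and the surface has Euler characteristic `2 - 2 g`. -/
def HasGenus (R : RotationSystem G) (g : ℕ) : Prop :=
  G.Connected ∧ (Nat.card V : ℤ) - Nat.card G.edgeSet + Nat.card R.Face = 2 - 2 * g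

/-- The face `F` is an end of the dual edge crossing `e`: the edge `e` lies on the boundary of `F`. -/
def DualEnd (R : RotationSystem G) (F : R.Face) (e : G.edgeSet) : Prop :=
  ∃ d : G.Dart, d.edge = e.1 ∧ Quotient.mk (Equiv.Perm.SameCycle.setoid R.face) d = F

/-- The dual graph has a proper 3-edge-colouring. -/
def DualColourable (R : RotationSystem G) : Prop :=
  ∃ c : G.edgeSet → Fin 3, ∀ e e', e ≠ e' → (∃ F, R.DualEnd F e ∧ R.DualEnd F e') → c e ≠ c e'

end RotationSystem

/-- Property `(G_g)`: the dual of every simple triangulation of the orientable surface of genus
`g` is 3-edge-colourable. -/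
def Grunbaum (g : ℕ) : Prop :=
  ∀ (V : Type) [Finite V] (G : SimpleGraph V) (R : RotationSystem G),
    R.HasGenus g → R.IsTriangulation → R.DualColourable

end Pool.Agent.MP_06b47d_co
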