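import Pool.Agent.MP_06b47d_co.Defs

/-! Triangulations given by a third-vertex function. -/

open Relation

namespace Pool.Agent.MP_06b47d_co

/-- An oriented triangulation: `nx a b` is the third vertex of the face to the side of `a b`. -/
structure Pre (V : Type) where
  adj : V → V → Prop
  nx : V → V → V
  symm : ∀ {a b}, adj a b → adj b a
  irr : ∀ a, ¬ adj a a
  h1 : ∀ {a b}, adj a b → adj b (nx a b)
  h2 : ∀ {a b}, adj a b → nx b (nx a b) = a
  link : ∀ {v u w}, adj v u → adj v w → ReflTransGen (fun x y => adj v x ∧ y = nx x v) u w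
  conn : ∀ a b, ReflTransGen adj a b

namespace Pre

variable {V : Type} (P : Pre V)

lemma h3 {a b : V} (h : P.adj a b) : P.nx (P.nx a b) a = b := by
  have := P.h2 (P.h1 h)
  rwa [P.h2 h] at this

lemma h4 {a b : V} (h : P.adj a b) : P.adj (P.nx a b) a := by
  have := P.h1 (P.h1 h)
  rwa [P.h2 h] at this

def Bad : Prop :=
  ¬ ∃ f : V → V → Fin 3, (∀ a b, f a b = f b a) ∧ ∀ a b, P.adj a b → f a b ≠ f b (P.nx a b)

open Classical in
noncomputable def darts [Fintype V] : ℕ := ∑ x, ∑ y, if P.adj x y then 1 else 0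

def graph : SimpleGraph V where
  Adj := P.adj
  symm := ⟨fun _ _ h => P.symm h⟩
  loopless := ⟨P.irr⟩

def rotSys : RotationSystem P.graph where
  rot :=
    { toFun := fun d => ⟨(d.fst, P.nx d.snd d.fst), P.h1 (P.symm d.adj)⟩
      invFun := fun d => ⟨(d.fst, P.nx d.fst d.snd), P.symm (P.h4 d.adj)⟩
      left_inv := fun d => by
        ext
        · rfl
        · exact P.h2 (P.symm d.adj)
      right_inv := fun d => by
        ext
        · rfl
        · exact P.h3 d.adj }
  rot_fst := fun _ => rfl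
  rot_cyc := by
    rintro ⟨⟨v, u⟩, hu⟩ ⟨⟨v', w⟩, hw⟩ h
    obtain rfl : v = v' := h
    have h1 : ReflTransGen (fun x y => P.adj v x ∧ y = P.nx x v) u w := P.link hu hw
    induction h1 with
    | refl => exact Equiv.Perm.SameCycle.refl _ _
    | tail _ h2 ih =>
      obtain ⟨h3, rfl⟩ := h2
      exact (ih h3).apply_right

lemma face_apply (d : P.graph.Dart) :
    P.rotSys.face d = ⟨(d.snd, P.nx d.fst d.snd), P.h1 d.adj⟩ := rfl

lemma face3 (d : P.graph.Dart) : P.rotSys.face (P.rotSys.face (P.rotSys.face d)) = d := by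
  ext
  · exact P.h2 d.adj
  · simp only [face_apply, P.h2 d.adj, P.h3 d.adj]

lemma face_ne (d : P.graph.Dart) : P.rotSys.face d ≠ d := fun h =>
  d.fst_ne_snd (congrArg (fun d : P.graph.Dart => d.fst) h).symm

lemma isTri : P.rotSys.IsTriangulation := fun d =>
  haveI : Fact (Nat.Prime 3) := ⟨Nat.prime_three⟩
  Function.minimalPeriod_eq_prime (P.face3 d) (P.face_ne d)

lemma card_darts [Fintype V] : Nat.card P.graph.Dart = P.darts := by
  classical
  have e : P.graph.Dart ≃ {p : V × V // P.adj p.1 p.2} :=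
    ⟨fun d => ⟨d.toProd, d.adj⟩, fun p => ⟨p.1, p.2⟩, fun _ => rfl, fun _ => rfl⟩
  rw [Nat.card_congr e, Nat.card_eq_fintype_card, Fintype.card_subtype, Finset.card_filter,
    Fintype.sum_prod_type, darts]

lemma card_faces [Fintype V] : 3 * Nat.card P.rotSys.Face = P.darts := by
  classical
  have : Fintype P.rotSys.Face := by unfold RotationSystem.Face; exact Fintype.ofFinite _
  rw [← card_darts, Nat.card_eq_fintype_card, Nat.card_eq_fintype_card, ← Finset.card_univ,
    ← Finset.card_univ (α := P.graph.Dart), Finset.card_eq_sum_card_fiberwise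
      (f := fun d => (Quotient.mk (Equiv.Perm.SameCycle.setoid P.rotSys.face) d : P.rotSys.Face))
      (s := Finset.univ) (t := Finset.univ) (fun _ _ => Finset.mem_univ _), mul_comm,
    Finset.card_eq_sum_ones, Finset.sum_mul]
  refine Finset.sum_congr (congrArg (@Finset.univ _) (Subsingleton.elim _ _)) fun F _ => ?_
  rw [one_mul]
  symm
  obtain ⟨d, rfl⟩ := Quotient.exists_rep F
  rw [Finset.card_eq_three]
  have h3 : P.rotSys.face ^ 3 = 1 := by
    ext1 d; exact P.face3 d
  refine ⟨d, P.rotSys.face d, P.rotSys.face (P.rotSys.face d), (P.face_ne d).symm, ?_,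
    (P.face_ne _).symm, ?_⟩
  · intro h
    have := congrArg P.rotSys.face h
    rw [P.face3] at this
    exact P.face_ne d this
  · ext x
    simp only [Finset.mem_filter, Finset.mem_univ, true_and, Finset.mem_insert,
      Finset.mem_singleton]
    constructor
    · intro h
      obtain ⟨i, -, hi⟩ := (Quotient.exact h).symm.exists_pow_eq'
      rw [← Nat.mod_add_div i 3, pow_add, pow_mul, h3, one_pow, mul_one] at hi
      have : i % 3 = 0 ∨ i % 3 = 1 ∨ i % 3 = 2 := by omega
      rcases this with h | h | h <;> rw [h] at hi <;> simp [← hi, pow_two]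
    · rintro (rfl | rfl | rfl)
      · rfl
      · exact Quotient.sound (Equiv.Perm.SameCycle.refl _ _).apply_left
      · exact Quotient.sound (Equiv.Perm.SameCycle.refl _ _).apply_left.apply_left

lemma not_grunbaum [Fintype V] [Nonempty V] {g : ℕ}
    (h : P.darts + 12 = 6 * Fintype.card V + 12 * g) (hb : P.Bad) : ¬ Grunbaum g := by
  classical
  intro H
  have h1 := P.card_faces
  have h2 : P.darts = 2 * Nat.card P.graph.edgeSet := by
    rw [← card_darts, Nat.card_eq_fintype_card, SimpleGraph.dart_card_eq_twice_card_edges,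
      Nat.card_eq_fintype_card, SimpleGraph.edgeFinset_card]
  obtain ⟨c, hc⟩ := H V P.graph P.rotSys ⟨⟨fun a b =>
    (SimpleGraph.reachable_iff_reflTransGen _ _).2 (P.conn a b)⟩, by
      rw [Nat.card_eq_fintype_card]; omega⟩ P.isTri
  refine hb ⟨fun a b => if h : s(a, b) ∈ P.graph.edgeSet then c ⟨_, h⟩ else 0,
    fun a b => by simp only [Sym2.eq_swap (a := a)], fun a b hab => ?_⟩
  have e1 : s(a, b) ∈ P.graph.edgeSet := hab
  have e2 : s(b, P.nx a b) ∈ P.graph.edgeSet := P.h1 hab
  simp only [dif_pos e1, dif_pos e2]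
  refine hc _ _ ?_ ⟨_, ⟨⟨(a, b), hab⟩, rfl, rfl⟩, ⟨⟨(b, P.nx a b), P.h1 hab⟩, rfl,
    Quotient.sound (Equiv.Perm.SameCycle.refl P.rotSys.face ⟨(a, b), hab⟩).apply_left⟩⟩
  intro h
  rcases Sym2.eq_iff.1 (congrArg Subtype.val h) with ⟨h1, -⟩ | ⟨h1, -⟩
  · exact P.irr _ (h1 ▸ hab)
  · have h5 := P.h4 hab
    rw [← h1] at h5
    exact P.irr _ h5

end Pre

end Pool.Agent.MP_06b47d_co
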