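import Pool.Agent.MP_06b47d_co.Pre
import Pool.Agent.MP_06b47d_co.Chk

/-! Connected sum with the seven-vertex torus. -/

open Relation

namespace Pool.Agent.MP_06b47d_co

def th (i j : Fin 7) : Fin 7 := 3 * j + 5 * i

def T2 (i j : Fin 7) : Prop := i ≠ j ∧ ¬ (i = 0 ∧ j = 1) ∧ ¬ (i = 1 ∧ j = 3) ∧ ¬ (i = 3 ∧ j = 0)

instance (i j : Fin 7) : Decidable (T2 i j) := by unfold T2; infer_instance

lemma t_a : ∀ i j, T2 i j → j ≠ th i j := by decide

lemma t_b : ∀ i j, T2 i j → T2 j (th i j) := by decide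

lemma t_c : ∀ i j, th j (th i j) = i := by decide

lemma t_d : ∀ i j : Fin 7, (i ≠ 0 ∧ i ≠ 1 ∧ i ≠ 3) → i ≠ j →
    (∃ k < 7, (∀ l < k, T2 ((fun x => th x i)^[l] j) i) ∧ (fun x => th x i)^[k] j = 0) ∧
    (∃ k < 7, (∀ l < k, T2 ((fun x => th x i)^[l] 0) i) ∧ (fun x => th x i)^[k] 0 = j) := by
  decide

lemma k7 (g : Fin 7 → Fin 7 → Fin 3) (hs : ∀ i j, g i j = g j i)
    (h : ∀ i j, T2 i j → g i j ≠ g j (th i j)) : g 0 3 ≠ g 3 1 ∧ g 3 1 ≠ g 1 0 ∧ g 1 0 ≠ g 0 3 := by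
  obtain ⟨c, hc⟩ := exists_code g hs
  obtain ⟨s, h1, h2⟩ := chk_main (fun s => s 3 != s 10 && s 10 != s 1 && s 1 != s 3) c
    [(3, []), (17, [3]), (2, [3, 17]), (26, [17]), (19, [17, 26]), (33, [19]), (18, [19, 33]),
      (9, [18]), (11, [9, 18]), (25, [11]), (10, [11, 25]), (34, [25]), (27, [25, 26, 34]),
      (41, [26, 27]), (5, [33]), (4, [5, 33, 34]), (6, [2, 4, 34]), (20, [2, 6, 9]),
      (13, [9, 20, 41]), (12, [5, 13, 41]), (1, [5, 12])] (by decide +kernel) (by decide +kernel)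
    (fun it hit p hp => by
      obtain ⟨i, j, h1, h2⟩ : ∃ i j : Fin 7, T2 i j ∧
          ((p = code 7 i j ∧ it.1 = code 7 j (th i j)) ∨
            (it.1 = code 7 i j ∧ p = code 7 j (th i j))) := by
        revert it p
        decide +kernel
      have := h i j h1
      rcases h2 with ⟨h2, h3⟩ | ⟨h2, h3⟩ <;> rw [h2, h3, hc, hc]
      · exact this
      · exact this.symm)
  rw [h1 3 (by decide), h1 10 (by decide), h1 1 (by decide)] at h2
  rw [← hc, ← hc, ← hc]
  simpa [code, and_assoc] using h2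

namespace Pre

variable {V : Type} [DecidableEq V] (P : Pre V) (a b c : V)

def emb : Fin 7 → V ⊕ Fin 4 :=
  ![.inl a, .inl c, .inr 0, .inl b, .inr 1, .inr 2, .inr 3]

def lab : V ⊕ Fin 4 → Fin 7
  | .inl x => if x = a then 0 else if x = c then 1 else 3
  | .inr k => ![2, 4, 5, 6] k

def Fc (x y : V) : Prop := (x = a ∧ y = b) ∨ (x = b ∧ y = c) ∨ (x = c ∧ y = a)

instance (x y : V) : Decidable (Fc a b c x y) := by unfold Fc; infer_instance

def adj' : V ⊕ Fin 4 → V ⊕ Fin 4 → Prop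
  | .inl x, .inl y => P.adj x y
  | .inl x, .inr _ => x = a ∨ x = b ∨ x = c
  | .inr _, .inl y => y = a ∨ y = b ∨ y = c
  | .inr i, .inr j => i ≠ j

def nx' : V ⊕ Fin 4 → V ⊕ Fin 4 → V ⊕ Fin 4
  | .inl x, .inl y => if Fc a b c x y then emb a b c (th (lab a c (.inl x)) (lab a c (.inl y)))
      else .inl (P.nx x y)
  | x, y => emb a b c (th (lab a c x) (lab a c y))

variable {P a b c}

section

variable (hab : P.adj a b) (hc : P.nx a b = c)
include hab hc

omit [DecidableEq V] in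
lemma basic : P.adj b c ∧ P.adj c a ∧ P.nx b c = a ∧ P.nx c a = b ∧ a ≠ b ∧ b ≠ c ∧ c ≠ a := by
  subst hc
  exact ⟨P.h1 hab, P.h4 hab, P.h2 hab, P.h3 hab, fun h => P.irr _ (h ▸ hab),
    fun h => P.irr b (by have := P.h1 hab; rwa [← h] at this),
    fun h => P.irr a (by have := P.h4 hab; rwa [h] at this)⟩

lemma nx_emb {i j : Fin 7} (h : T2 i j) :
    P.nx' a b c (emb a b c i) (emb a b c j) = emb a b c (th i j) := by
  obtain ⟨-, -, -, -, n1, n2, n3⟩ := basic hab hc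
  have n4 := n1.symm
  have n5 := n3.symm
  revert h
  fin_cases i <;> fin_cases j <;> simp [T2, nx', emb, lab, Fc, *]

omit [DecidableEq V] in
lemma adj_emb {i j : Fin 7} (h : i ≠ j) : P.adj' a b c (emb a b c i) (emb a b c j) := by
  obtain ⟨b1, b2, -⟩ := basic hab hc
  have b3 := P.symm b1
  have b4 := P.symm b2
  have b5 := P.symm hab
  revert h
  fin_cases i <;> fin_cases j <;> simp [adj', emb, *]

omit hab hc in
lemma cases' {x y : V ⊕ Fin 4} (h : P.adj' a b c x y) :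
    (∃ u v, P.adj u v ∧ ¬ Fc a b c u v ∧ x = .inl u ∧ y = .inl v) ∨
      ∃ i j, T2 i j ∧ x = emb a b c i ∧ y = emb a b c j := by
  have key : ∀ k : Fin 4, ∃ j : Fin 7, j ≠ 0 ∧ j ≠ 1 ∧ j ≠ 3 ∧ Sum.inr k = emb a b c j := by
    intro k
    fin_cases k
    exacts [⟨2, by decide, by decide, by decide, rfl⟩, ⟨4, by decide, by decide, by decide, rfl⟩,
      ⟨5, by decide, by decide, by decide, rfl⟩, ⟨6, by decide, by decide, by decide, rfl⟩]
  rcases x with x | x <;> rcases y with y | y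
  · by_cases h1 : Fc a b c x y
    · rcases h1 with ⟨rfl, rfl⟩ | ⟨rfl, rfl⟩ | ⟨rfl, rfl⟩
      exacts [Or.inr ⟨0, 3, by decide, rfl, rfl⟩, Or.inr ⟨3, 1, by decide, rfl, rfl⟩,
        Or.inr ⟨1, 0, by decide, rfl, rfl⟩]
    · exact Or.inl ⟨x, y, h, h1, rfl, rfl⟩
  · obtain ⟨j, j1, j2, j3, j4⟩ := key y
    rcases h with rfl | rfl | rfl
    exacts [Or.inr ⟨0, j, by simp [T2, *, j1.symm], rfl, j4⟩,
      Or.inr ⟨3, j, by simp [T2, *, j3.symm], rfl, j4⟩,
      Or.inr ⟨1, j, by simp [T2, *, j2.symm], rfl, j4⟩]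
  · obtain ⟨j, j1, j2, j3, j4⟩ := key x
    rcases h with rfl | rfl | rfl
    exacts [Or.inr ⟨j, 0, by simp [T2, *], j4, rfl⟩, Or.inr ⟨j, 3, by simp [T2, *], j4, rfl⟩,
      Or.inr ⟨j, 1, by simp [T2, *], j4, rfl⟩]
  · obtain ⟨i, i1, i2, i3, i4⟩ := key x
    obtain ⟨j, -, -, -, j4⟩ := key y
    refine Or.inr ⟨i, j, ⟨?_, by simp [*]⟩, i4, j4⟩
    rintro rfl
    exact h (Sum.inr.inj (i4.trans j4.symm))

omit [DecidableEq V] in
lemma nf_next {u v : V} (h : P.adj u v) (h1 : ¬ Fc a b c u v) : ¬ Fc a b c v (P.nx u v) := by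
  obtain ⟨-, -, b1, b2, -⟩ := basic hab hc
  have h2 := P.h2 h
  rintro (⟨h3, h4⟩ | ⟨h3, h4⟩ | ⟨h3, h4⟩) <;> rw [h4] at h2 <;> rw [h3] at h2 <;>
    apply h1 <;> simp [Fc, ← h2, *]

omit hab hc in
lemma nx_inl {u v : V} (h1 : ¬ Fc a b c u v) :
    P.nx' a b c (.inl u) (.inl v) = .inl (P.nx u v) := by simp [nx', h1]

lemma link_emb (i j : Fin 7) (_hij : j ≠ i) (k : ℕ)
    (h : ∀ l < k, T2 ((fun x => th x i)^[l] j) i) :
    ReflTransGen (fun x y => P.adj' a b c (emb a b c i) x ∧ y = P.nx' a b c x (emb a b c i))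
      (emb a b c j) (emb a b c ((fun x => th x i)^[k] j)) := by
  induction k with
  | zero => exact .refl
  | succ k ih =>
    have h1 := h k (by omega)
    refine (ih fun l hl => h l (by omega)).tail ⟨adj_emb hab hc h1.1.symm, ?_⟩
    rw [nx_emb hab hc h1, Function.iterate_succ_apply']

lemma link_old {v u w : V} (h : ReflTransGen (fun x y => P.adj v x ∧ y = P.nx x v) u w) :
    ReflTransGen (fun x y => P.adj' a b c (.inl v) x ∧ y = P.nx' a b c x (.inl v))
      (.inl u) (.inl w) := by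
  obtain ⟨-, -, b1, b2, -⟩ := basic hab hc
  induction h with
  | refl => exact .refl
  | @tail x y _ h2 ih =>
    obtain ⟨h3, rfl⟩ := h2
    by_cases h1 : Fc a b c x v
    · refine ih.trans ?_
      rcases h1 with ⟨rfl, rfl⟩ | ⟨rfl, rfl⟩ | ⟨rfl, rfl⟩
      · rw [hc]; exact link_emb hab hc 3 0 (by decide) 5 (by decide)
      · rw [b1]; exact link_emb hab hc 1 3 (by decide) 5 (by decide)
      · rw [b2]; exact link_emb hab hc 0 1 (by decide) 5 (by decide)
    · exact ih.tail ⟨h3, (nx_inl h1).symm⟩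

lemma link_new {v x : V ⊕ Fin 4} (h : P.adj' a b c v x) :
    (∃ v' u, v = .inl v' ∧ P.adj v' u ∧ ReflTransGen
      (fun x y => P.adj' a b c v x ∧ y = P.nx' a b c x v) x (.inl u) ∧ ∃ w, P.adj v' w ∧
      ReflTransGen (fun x y => P.adj' a b c v x ∧ y = P.nx' a b c x v) (.inl w) x) ∨
    (∃ k, v = .inr k ∧ ReflTransGen (fun x y => P.adj' a b c v x ∧ y = P.nx' a b c x v) x (.inl a) ∧
      ReflTransGen (fun x y => P.adj' a b c v x ∧ y = P.nx' a b c x v) (.inl a) x) := by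
  obtain ⟨b1, b2, -⟩ := basic hab hc
  have key : ∀ i j s t : Fin 7, j ≠ i → s ≠ i →
      (∃ k < 7, (∀ l < k, T2 ((fun x => th x i)^[l] j) i) ∧ (fun x => th x i)^[k] j = t) →
      (∃ k < 7, (∀ l < k, T2 ((fun x => th x i)^[l] s) i) ∧ (fun x => th x i)^[k] s = j) →
      ReflTransGen (fun x y => P.adj' a b c (emb a b c i) x ∧ y = P.nx' a b c x (emb a b c i))
        (emb a b c j) (emb a b c t) ∧
      ReflTransGen (fun x y => P.adj' a b c (emb a b c i) x ∧ y = P.nx' a b c x (emb a b c i))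
        (emb a b c s) (emb a b c j) := by
    rintro i j s t h1 h2 ⟨k, -, h3, rfl⟩ ⟨k', -, h4, rfl⟩
    exact ⟨link_emb hab hc _ _ h1 k h3, link_emb hab hc _ _ h2 k' h4⟩
  rcases v with v | v
  · left
    rcases x with x | x
    · exact ⟨v, x, rfl, h, .refl, x, h, .refl⟩
    · obtain ⟨j, j1, j4⟩ : ∃ j : Fin 7, (j ≠ 0 ∧ j ≠ 1 ∧ j ≠ 3) ∧ Sum.inr x = emb a b c j := by
        fin_cases x
        exacts [⟨2, by decide, rfl⟩, ⟨4, by decide, rfl⟩, ⟨5, by decide, rfl⟩, ⟨6, by decide, rfl⟩]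
      rw [j4]
      rcases h with rfl | rfl | rfl
      · have := key 0 j 1 3 j1.1 (by decide) (by revert j1; generalize j = j; revert j; decide)
          (by revert j1; generalize j = j; revert j; decide)
        exact ⟨_, _, rfl, hab, this.1, _, P.symm b2, this.2⟩
      · have := key 3 j 0 1 j1.2.2 (by decide) (by revert j1; generalize j = j; revert j; decide)
          (by revert j1; generalize j = j; revert j; decide)
        exact ⟨_, _, rfl, b1, this.1, _, P.symm hab, this.2⟩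
      · have := key 1 j 3 0 j1.2.1 (by decide) (by revert j1; generalize j = j; revert j; decide)
          (by revert j1; generalize j = j; revert j; decide)
        exact ⟨_, _, rfl, b2, this.1, _, P.symm b1, this.2⟩
  · right
    refine ⟨v, rfl, ?_⟩
    rcases cases' h with ⟨_, _, _, _, h1, _⟩ | ⟨i, j, h1, h2, rfl⟩
    · simp at h1
    · have h3 : i ≠ 0 ∧ i ≠ 1 ∧ i ≠ 3 := by
        refine ⟨?_, ?_, ?_⟩ <;> rintro rfl <;> simp [emb] at h2
      rw [h2]
      have h4 := h1.1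
      exact key i j 0 0 h4.symm h3.1.symm (t_d i j h3 h4).1 (t_d i j h3 h4).2

end

omit [DecidableEq V] in
lemma symm' {x y : V ⊕ Fin 4} (h : P.adj' a b c x y) : P.adj' a b c y x := by
  rcases x with x | x <;> rcases y with y | y
  exacts [P.symm h, h, h, Ne.symm h]

/-- The connected sum with the seven-vertex torus along the face `a b c`. -/
def sum (hab : P.adj a b) (hc : P.nx a b = c) : Pre (V ⊕ Fin 4) where
  adj := P.adj' a b c
  nx := P.nx' a b c
  symm := symm'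
  irr := by
    rintro (x | x)
    exacts [P.irr x, fun h => h rfl]
  h1 := by
    intro x y h
    rcases cases' h with ⟨u, v, h1, h2, rfl, rfl⟩ | ⟨i, j, h1, rfl, rfl⟩
    · rw [nx_inl h2]; exact P.h1 h1
    · rw [nx_emb hab hc h1]
      exact adj_emb hab hc (t_a i j h1)
  h2 := by
    intro x y h
    rcases cases' h with ⟨u, v, h1, h2, rfl, rfl⟩ | ⟨i, j, h1, rfl, rfl⟩
    · rw [nx_inl h2, nx_inl (nf_next hab hc h1 h2), P.h2 h1]
    · rw [nx_emb hab hc h1, nx_emb hab hc (t_b i j h1), t_c]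
  link := by
    intro v u w h1 h2
    rcases link_new hab hc h1 with ⟨v1, u1, rfl, a1, a2, -⟩ | ⟨k, rfl, a1, -⟩ <;>
      rcases link_new hab hc h2 with ⟨v2, -, e, -, -, w1, a3, a4⟩ | ⟨k, e, -, a4⟩
    · obtain rfl := Sum.inl.inj e
      exact (a2.trans (link_old hab hc (P.link a1 a3))).trans a4
    · simp at e
    · simp at e
    · exact a1.trans a4
  conn := by
    have h1 : ∀ u v, ReflTransGen (P.adj' a b c) (.inl u) (.inl v) := fun u v => by
      induction P.conn u v with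
      | refl => exact .refl
      | tail _ h ih => exact ih.tail h
    have h2 : ∀ k, P.adj' a b c (.inr k) (.inl a) := fun _ => Or.inl rfl
    rintro (x | x) (y | y)
    · exact h1 x y
    · exact (h1 x a).tail (symm' (h2 y))
    · exact ReflTransGen.head (h2 x) (h1 a y)
    · exact ReflTransGen.head (h2 x) (.single (symm' (h2 y)))

lemma sum_bad (hab : P.adj a b) (hc : P.nx a b = c) (h : P.Bad) : (sum hab hc).Bad := by
  rintro ⟨f, f1, f2⟩
  obtain ⟨-, -, b1, b2, -⟩ := basic hab hc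
  obtain ⟨k1, k2, k3⟩ := k7 (fun i j => f (emb a b c i) (emb a b c j)) (fun _ _ => f1 _ _)
    (fun i j hij => by
      have := f2 _ _ (adj_emb hab hc hij.1)
      rwa [show (sum hab hc).nx = P.nx' a b c from rfl, nx_emb hab hc hij] at this)
  refine h ⟨fun u v => f (.inl u) (.inl v), fun _ _ => f1 _ _, fun u v huv => ?_⟩
  by_cases h1 : Fc a b c u v
  · rcases h1 with ⟨rfl, rfl⟩ | ⟨rfl, rfl⟩ | ⟨rfl, rfl⟩
    · rw [hc]; exact k1
    · rw [b1]; exact k2
    · rw [b2]; exact k3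
  · have := f2 (.inl u) (.inl v) huv
    rwa [show (sum hab hc).nx = P.nx' a b c from rfl, nx_inl h1] at this

lemma sum_darts [Fintype V] (hab : P.adj a b) (hc : P.nx a b = c) :
    (sum hab hc).darts = P.darts + 36 := by
  classical
  obtain ⟨-, -, -, -, n1, n2, n3⟩ := basic hab hc
  have h1 : (Finset.univ.filter fun x => x = a ∨ x = b ∨ x = c).card = 3 :=
    Finset.card_eq_three.2 ⟨a, b, c, n1, n3.symm, n2, by ext; simp⟩
  rw [Finset.card_filter] at h1
  have h2 : ∀ x : Fin 4, (∑ y : Fin 4, if x ≠ y then 1 else 0) = 3 := by decide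
  have e1 : ∀ y : Fin 4, (∑ x : V, if (sum hab hc).adj (.inl x) (.inr y) then 1 else 0) = 3 :=
    fun y => by rw [← h1]; exact Finset.sum_congr rfl fun x _ => if_congr Iff.rfl rfl rfl
  have e2 : ∀ y : Fin 4, (∑ x : V, if (sum hab hc).adj (.inr y) (.inl x) then 1 else 0) = 3 :=
    fun y => by rw [← h1]; exact Finset.sum_congr rfl fun x _ => if_congr Iff.rfl rfl rfl
  have e3 : ∀ y : Fin 4, (∑ x : Fin 4, if (sum hab hc).adj (.inr y) (.inr x) then 1 else 0) = 3 :=
    fun y => by rw [← h2 y]; exact Finset.sum_congr rfl fun x _ => if_congr Iff.rfl rfl rfl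
  have e4 : (∑ x : V, ∑ y : V, if (sum hab hc).adj (.inl x) (.inl y) then 1 else 0) = P.darts :=
    rfl
  simp only [darts, Fintype.sum_sum_type, Finset.sum_add_distrib]
  rw [Finset.sum_comm (s := Finset.univ) (t := (Finset.univ : Finset (Fin 4)))]
  simp only [e1, e2, e3, e4]
  simp [darts]

end Pre

def Good (g : ℕ) : Prop :=
  ∃ (V : Type) (_ : Fintype V) (P : Pre V), (∃ a b, P.adj a b) ∧
    P.darts + 12 = 6 * Fintype.card V + 12 * g ∧ P.Bad

lemma Good.succ {g : ℕ} (h : Good g) : Good (g + 1) := by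
  classical
  obtain ⟨V, _, P, ⟨a, b, hab⟩, h1, h2⟩ := h
  refine ⟨V ⊕ Fin 4, inferInstance, Pre.sum hab rfl, ⟨.inl a, .inl b, hab⟩, ?_,
    Pre.sum_bad hab rfl h2⟩
  rw [Pre.sum_darts, Fintype.card_sum, Fintype.card_fin]
  omega

lemma Good.not_grunbaum {g : ℕ} (h : Good g) : ¬ Grunbaum g := by
  obtain ⟨V, _, P, ⟨a, -⟩, h1, h2⟩ := h
  have : Nonempty V := ⟨a⟩
  exact P.not_grunbaum h1 h2

end Pool.Agent.MP_06b47d_co
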